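import Mathlib
import Pool.Agent.Y959.Opn.Main

set_option autoImplicit false

/-!
# A bound for odd perfect numbers which depends on the exponents

Let `N` be an odd perfect number and `e p` the exponent of `p` in `N`.  In the descent of Heath-Brown,
Cook and Nielsen a prime `p` is first treated as if its exponent were infinite and later on with its
exact exponent.  The second step is possible as soon as `p ^ (e + 1)` is at most the height reached, and
then the height grows by the factor `p ^ (e - 1)` only; in a logarithmic scale this is the factor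
`2 e / (e + 1)` instead of `2`.  When several primes have to be moved at once, the inequality
`∏ (1 + α i) - 1 ≥ (∑ α i) (1 + (m - 1) a / 2)`, `α i ≥ a`, `i ≤ m`, shows that a suitable set of
smallest elements can be moved without loss.
-/

namespace Pool.Agent.Results.MP_f02ea4_nt.ExponentBound
open Finset
open Pool.Agent.Y959.Opn

/-- **Main theorem.** -/
theorem result (N : ℕ) (hodd : Odd N) (hperf : Nat.Perfect N) :
    (∀ D ⊆ N.primeFactors, Real.log (4 * N) ≤ Real.log (4 * ∏ p ∈ D, (p : ℝ)) *
      ((∏ p ∈ D, 2 * (N.factorization p : ℝ) / (N.factorization p + 1)) *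
        ∏ p ∈ N.primeFactors \ D, 4 * (N.factorization p : ℝ) / (N.factorization p + 1))) ∧
    4 * (N : ℝ) ≤
      4 ^ (∏ p ∈ N.primeFactors, 4 * (N.factorization p : ℝ) / (N.factorization p + 1)) ∧
    Real.log N ^ (Real.log 3 / Real.log (8 / 3)) ≤ 2 * (N.divisors.card : ℝ) ∧
    5 / 2 * Real.log (Real.log N) ≤ (ArithmeticFunction.cardFactors N : ℝ) + 5 := by
  have hw : ∀ J : Finset ℕ, ∏ p ∈ J, (2 * w1 N.factorization p) =
      ∏ p ∈ J, 4 * (N.factorization p : ℝ) / (N.factorization p + 1) := by
    intro J
    apply Finset.prod_congr rfl
    intro p _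
    unfold w1
    ring
  refine ⟨fun D hD => ?_, ?_, card_divisors hodd hperf, omega hodd hperf⟩
  · have h := bound hodd hperf hD
    rw [hw] at h
    exact h
  · have h := bound hodd hperf (Finset.empty_subset _)
    rw [hw] at h
    simp only [Finset.prod_empty, mul_one, one_mul, Finset.sdiff_empty] at h
    have hN : (0 : ℝ) < N := by exact_mod_cast hperf.2
    rw [Real.rpow_def_of_pos (by norm_num)]
    exact (Real.log_le_iff_le_exp (by positivity)).1 h

end Pool.Agent.Results.MP_f02ea4_nt.ExponentBound
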