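import Mathlib
import Pool.Agent.Y959.Sv.Main

set_option autoImplicit false

/-!
# The least prime factor of an odd perfect number is `o(√ log N)`

Let `P` be the least prime factor of the odd perfect number `N`.  Since the sum of `1 / p` over `p ∣ N`
is about `log 2`, the set of the prime factors of `N` which are at most a constant times `P ^ 2` has
`∑ log p ≥ c P ^ 2`, unless `log N` is much larger than `P ^ 2`.  By a sieve of dimension two only
`o(P ^ 2 / log P)` of these primes have an exponent which is smaller than a given number `B`.
-/

namespace Pool.Agent.Results.MP_f02ea4_nt.LeastPrime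

/-- **Main theorem.** -/
theorem result (ε : ℝ) (hε : 0 < ε) : ∃ C : ℝ, ∀ N : ℕ, Odd N → Nat.Perfect N →
    (N.minFac : ℝ) ^ 2 ≤ ε * Real.log N + C :=
  Pool.Agent.Y959.Sv.least ε hε

end Pool.Agent.Results.MP_f02ea4_nt.LeastPrime
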