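import Mathlib
import Pool.Agent.Y959.Opn.Main

set_option autoImplicit false

/-!
# The reciprocals of the prime factors of an odd perfect number outside a given set

The descent for odd perfect numbers, with weights depending on the exponents, is run on the primes of a
proper subset `V` of the set of the prime factors only.  If the sum of the reciprocals of the other
primes were very small, then these primes could be neglected in all steps.
-/

namespace Pool.Agent.Results.MP_f02ea4_nt.ReciprocalTail
open Finset
open Pool.Agent.Y959.Opn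

/-- **Main theorem.** -/
theorem result (N : ℕ) (hodd : Odd N) (hperf : Nat.Perfect N) :
    (∀ V ⊂ N.primeFactors, ∀ D ⊆ V,
      Real.exp (-(Real.log (6 * ∏ p ∈ D, (p : ℝ)) *
        ((∏ p ∈ D, 2 * (N.factorization p : ℝ) / (N.factorization p + 1)) *
          ∏ p ∈ V \ D, 4 * (N.factorization p : ℝ) / (N.factorization p + 1)))) <
      ∑ p ∈ N.primeFactors \ V, 1 / (p : ℝ)) ∧
    (∀ q ∈ N.primeFactors, (q : ℝ) < ({p ∈ N.primeFactors | q ≤ p}.card : ℝ) *
      6 ^ (∏ p ∈ N.primeFactors with p < q,
        4 * (N.factorization p : ℝ) / (N.factorization p + 1))) ∧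
    (∀ q ∈ N.primeFactors, q < {p ∈ N.primeFactors | q ≤ p}.card *
      6 ^ (4 ^ {p ∈ N.primeFactors | p < q}.card)) := by
  have hw : ∀ J : Finset ℕ, ∏ p ∈ J, (2 * w1 N.factorization p) =
      ∏ p ∈ J, 4 * (N.factorization p : ℝ) / (N.factorization p + 1) := by
    intro J
    apply Finset.prod_congr rfl
    intro p _
    unfold w1
    ring
  refine ⟨fun V hV D hD => ?_, fun q hq => ?_, fun q hq => ?_⟩
  · have h := tail hodd hperf hD hV
    rw [hw] at h
    exact h
  · have h := small_prime hodd hperf hq
    rw [hw] at h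
    exact h
  · have h := small_prime hodd hperf hq
    have h1 := w_le_four (e := N.factorization) (N.primeFactors.filter (fun p => p < q))
    have h2 : (6 : ℝ) ^ (∏ p ∈ N.primeFactors.filter (fun p => p < q),
        (2 * w1 N.factorization p)) ≤
        (6 : ℝ) ^ ((4 : ℝ) ^ (N.primeFactors.filter (fun p => p < q)).card) :=
      Real.rpow_le_rpow_of_exponent_le (by norm_num) h1
    have h3 : (q : ℝ) < ((N.primeFactors.filter (fun p => q ≤ p)).card : ℝ) *
        (6 : ℝ) ^ ((4 : ℝ) ^ (N.primeFactors.filter (fun p => p < q)).card) :=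
      h.trans_le (mul_le_mul_of_nonneg_left h2 (Nat.cast_nonneg _))
    have h4 : (6 : ℝ) ^ ((4 : ℝ) ^ (N.primeFactors.filter (fun p => p < q)).card) =
        ((6 ^ (4 ^ (N.primeFactors.filter (fun p => p < q)).card) : ℕ) : ℝ) := by
      generalize (N.primeFactors.filter (fun p => p < q)).card = n
      have h5 : (4 : ℝ) ^ n = ((4 ^ n : ℕ) : ℝ) := by push_cast; rfl
      rw [h5, Real.rpow_natCast]
      push_cast
      rfl
    rw [h4] at h3
    exact_mod_cast h3

end Pool.Agent.Results.MP_f02ea4_nt.ReciprocalTail
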