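import Mathlib
import Pool.Agent.Y959.Sv.Main

set_option autoImplicit false

/-!
# The prime factors of an odd perfect number with a small exponent

Let `l` be an odd prime, `N` an odd perfect number and `p ^ e` an exact prime power divisor of `N` with
`l ∣ e + 1`.  A prime `r` which does not divide `2 N` does not divide `Φ_l(p)`; so `p` avoids
`l` residue classes modulo each such `r = 1 (mod l)`, and one class modulo the other ones.  The sum of
`1 / r` over `r ∣ N` is at most `1`, hence this is a sieve of dimension two, uniformly in `N`.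
-/

namespace Pool.Agent.Results.MP_f02ea4_nt.SmallExponents

/-- **Main theorem.** -/
theorem result (B : ℕ) : ∃ C : ℝ, ∀ N : ℕ, Odd N → Nat.Perfect N →
    (∀ x : ℕ, 2 ≤ x →
      ({p ∈ N.primeFactors | p ≤ x ∧ (N.factorization p + 1).minFac ≤ B}.card : ℝ) ≤
        C * (x / Real.log x ^ 2)) ∧
    Real.log 2 - C / Real.log N.minFac ≤
      ∑ p ∈ N.primeFactors with B < (N.factorization p + 1).minFac, 1 / (p : ℝ) := by
  obtain ⟨C1, hC1, h1⟩ := Pool.Agent.Y959.Sv.count_bad B
  obtain ⟨C2, hC2, h2⟩ := Pool.Agent.Y959.Sv.sum_good B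
  refine ⟨max C1 C2, fun N hodd hperf => ⟨fun x hx => ?_, ?_⟩⟩
  · refine (h1 N hodd hperf x hx).trans ?_
    apply mul_le_mul_of_nonneg_right (le_max_left _ _)
    positivity
  · refine le_trans ?_ (h2 N hodd hperf)
    have h3 : 0 ≤ Real.log N.minFac := Real.log_natCast_nonneg _
    have h4 : C2 / Real.log N.minFac ≤ max C1 C2 / Real.log N.minFac :=
      div_le_div_of_nonneg_right (le_max_right _ _) h3
    linarith

end Pool.Agent.Results.MP_f02ea4_nt.SmallExponents
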